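import Pool.Agent.Q315.CC.Descent

/-!
# Cones in `ℝ ^ n` with the lattice `ℤ ^ n`
-/

set_option autoImplicit false

namespace Pool.Agent.Q315.CC

open Finset Filter Topology
open Pool.Agent.Y167
open scoped Pointwise

/-- The integral vectors. -/
def intL (n : ℕ) : AddSubgroup (Fin n → ℝ) where
  carrier := {x | ∀ i, ∃ m : ℤ, x i = m}
  add_mem' := by
    intro x y hx hy i
    obtain ⟨a, ha⟩ := hx i
    obtain ⟨b, hb⟩ := hy i
    exact ⟨a + b, by simp [ha, hb]⟩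
  zero_mem' := fun i => ⟨0, by simp⟩
  neg_mem' := by
    intro x hx i
    obtain ⟨a, ha⟩ := hx i
    exact ⟨-a, by simp [ha]⟩

/-- `N` is a closed convex cone with interior points, `C` a convex cone between the interior of `N` and
`N`, and `deg` a linear form which is integral on integral vectors and positive on the nonzero elements
of `N`. -/
structure IsConePair {n : ℕ} (N C : Set (Fin n → ℝ)) (deg : (Fin n → ℝ) →ₗ[ℝ] ℝ) : Prop where
  closed : IsClosed N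
  smulN : ∀ t : ℝ, 0 ≤ t → ∀ x ∈ N, t • x ∈ N
  nonempty : (interior N).Nonempty
  interior_sub : interior N ⊆ C
  sub : C ⊆ N
  add : ∀ x ∈ C, ∀ y ∈ C, x + y ∈ C
  smul : ∀ t : ℝ, 0 ≤ t → ∀ x ∈ C, t • x ∈ C
  deg_int : ∀ x ∈ intL n, ∃ m : ℤ, deg x = m
  deg_pos : ∀ x ∈ N, x ≠ 0 → 0 < deg x

variable {n : ℕ} {N C : Set (Fin n → ℝ)} {deg : (Fin n → ℝ) →ₗ[ℝ] ℝ}

theorem smul_interior (hs : ∀ t : ℝ, 0 ≤ t → ∀ x ∈ N, t • x ∈ N) {t : ℝ} (ht : 0 < t)
    {x : Fin n → ℝ} (hx : x ∈ interior N) : t • x ∈ interior N := by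
  rw [mem_interior] at hx ⊢
  obtain ⟨U, hU, hUo, hxU⟩ := hx
  refine ⟨t • U, ?_, hUo.smul₀ ht.ne', Set.smul_mem_smul_set hxU⟩
  rintro _ ⟨u, hu, rfl⟩
  exact hs t ht.le u (hU hu)

theorem ball_sub {x : Fin n → ℝ} (hx : x ∈ interior N) :
    ∃ ε : ℝ, 0 < ε ∧ ∀ y, ‖y‖ < ε → x - y ∈ interior N := by
  obtain ⟨ε, hε, h⟩ := Metric.isOpen_iff.1 isOpen_interior x hx
  refine ⟨ε, hε, fun y hy => h ?_⟩
  rw [Metric.mem_ball, dist_eq_norm]
  simpa using hy

theorem interior_absorb (hs : ∀ t : ℝ, 0 ≤ t → ∀ x ∈ N, t • x ∈ N) {x : Fin n → ℝ}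
    (hx : x ∈ interior N) (z : Fin n → ℝ) : ∃ K : ℝ, 0 < K ∧ K • x - z ∈ interior N := by
  obtain ⟨ε, hε, h⟩ := ball_sub hx
  refine ⟨(‖z‖ + 1) / ε, by positivity, ?_⟩
  have hK : 0 < (‖z‖ + 1) / ε := by positivity
  have h1 := h (((‖z‖ + 1) / ε)⁻¹ • z) (by
    rw [norm_smul, norm_inv, Real.norm_of_nonneg hK.le, inv_mul_lt_iff₀ hK]
    rw [div_mul_cancel₀ _ hε.ne']
    linarith)
  have h2 := smul_interior hs hK h1
  rwa [smul_sub, smul_smul, mul_inv_cancel₀ hK.ne', one_smul] at h2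

/-- The degree dominates the norm on the cone. -/
theorem exists_norm_le (h : IsConePair N C deg) : ∃ c : ℝ, 0 < c ∧ ∀ x ∈ N, ‖x‖ ≤ c * deg x := by
  have hcont : Continuous deg := LinearMap.continuous_of_finiteDimensional deg
  have hK : IsCompact (N ∩ Metric.sphere (0 : Fin n → ℝ) 1) :=
    (isCompact_sphere 0 1).inter_left h.closed
  have key : ∃ m : ℝ, 0 < m ∧ ∀ x ∈ N ∩ Metric.sphere (0 : Fin n → ℝ) 1, m ≤ deg x := by
    rcases (N ∩ Metric.sphere (0 : Fin n → ℝ) 1).eq_empty_or_nonempty with he | hne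
    · exact ⟨1, one_pos, fun x hx => by rw [he] at hx; exact hx.elim⟩
    · obtain ⟨x₀, hx₀, hmin⟩ := hK.exists_isMinOn hne hcont.continuousOn
      refine ⟨deg x₀, h.deg_pos _ hx₀.1 ?_, fun x hx => hmin hx⟩
      rintro rfl
      simpa using hx₀.2
  obtain ⟨m, hm, hmin⟩ := key
  refine ⟨m⁻¹, inv_pos.2 hm, fun x hx => ?_⟩
  by_cases h0 : x = 0
  · rw [h0]; simp
  have hn : 0 < ‖x‖ := norm_pos_iff.2 h0
  have h1 := hmin (‖x‖⁻¹ • x) ⟨h.smulN _ (inv_nonneg.2 hn.le) _ hx, by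
    rw [mem_sphere_zero_iff_norm, norm_smul, norm_inv, norm_norm, inv_mul_cancel₀ hn.ne']⟩
  rw [map_smul, smul_eq_mul, le_inv_mul_iff₀ hn] at h1
  rw [inv_mul_eq_div, le_div_iff₀ hm]
  exact h1

/-- Finitely many integral vectors in a ball. -/
theorem finite_int (B : ℝ) : {x : Fin n → ℝ | x ∈ intL n ∧ ‖x‖ ≤ B}.Finite := by
  have h1 : {y : ℝ | (∃ m : ℤ, y = m) ∧ |y| ≤ B}.Finite := by
    refine ((Set.finite_Icc (-⌈B⌉) ⌈B⌉).image fun m : ℤ => (m : ℝ)).subset ?_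
    rintro y ⟨⟨m, rfl⟩, hm⟩
    refine ⟨m, ?_, rfl⟩
    have h2 := abs_le.1 (hm.trans (Int.le_ceil B))
    exact ⟨by exact_mod_cast h2.1, by exact_mod_cast h2.2⟩
  refine (Set.Finite.pi' fun _ : Fin n => h1).subset ?_
  rintro x ⟨hx, hxB⟩ i
  exact ⟨hx i, (norm_le_pi_norm x i).trans hxB⟩

/-- An integral interior point. -/
theorem exists_int (h : IsConePair N C deg) : ∃ y, y ∈ intL n ∧ y ∈ interior N := by
  obtain ⟨x, hx⟩ := h.nonempty
  obtain ⟨ε, hε, hb⟩ := ball_sub hx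
  have ht : (0 : ℝ) < 2 / ε := by positivity
  let r : Fin n → ℝ := fun i => Int.fract ((2 / ε) * x i)
  have hr : ‖(2 / ε)⁻¹ • r‖ < ε := by
    rw [norm_smul, norm_inv, Real.norm_of_nonneg ht.le, inv_mul_lt_iff₀ ht, div_mul_cancel₀ _ hε.ne']
    refine lt_of_le_of_lt (pi_norm_le_iff_of_nonneg zero_le_one |>.2 fun i => ?_) one_lt_two
    simp only [r]
    rw [Real.norm_of_nonneg (Int.fract_nonneg _)]
    exact (Int.fract_lt_one _).le
  have h1 := smul_interior h.smulN ht (hb _ hr)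
  rw [smul_sub, smul_smul, mul_inv_cancel₀ ht.ne', one_smul] at h1
  refine ⟨_, fun i => ⟨⌊(2 / ε) * x i⌋, ?_⟩, h1⟩
  simp only [r, Pi.sub_apply, Pi.smul_apply, smul_eq_mul]
  rw [← Int.self_sub_fract]

theorem single_int (i : Fin n) : (Pi.single i 1 : Fin n → ℝ) ∈ intL n := by
  intro j
  by_cases h : j = i
  · subst h; exact ⟨1, by simp⟩
  · exact ⟨0, by simp [h]⟩

/-- The data of `Pool.Agent.Y167`. -/
theorem exists_cdata (h : IsConePair N C deg) :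
    ∃ (y₀ : Fin n → ℝ) (Y : Finset (Fin n → ℝ)), CData (intL n) C deg y₀ Y := by
  classical
  obtain ⟨c, hc, hnorm⟩ := exists_norm_le h
  obtain ⟨y₀, hy₀L, hy₀⟩ := exists_int h
  have habs : ∀ z, ∃ K : ℝ, 0 < K ∧ K • y₀ - z ∈ C := fun z => by
    obtain ⟨K, hK, h1⟩ := interior_absorb h.smulN hy₀ z
    exact ⟨K, hK, h.interior_sub h1⟩
  have hy₀C : y₀ ∈ C := h.interior_sub hy₀
  -- integral multiples
  have hnat : ∀ i : Fin n, ∃ K : ℕ, (K : ℝ) • y₀ + Pi.single i 1 ∈ C := by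
    intro i
    obtain ⟨K, hK, h1⟩ := habs (-Pi.single i 1)
    obtain ⟨m, hm⟩ := exists_nat_ge K
    refine ⟨m, ?_⟩
    have e : (m : ℝ) • y₀ + Pi.single i 1 = ((m : ℝ) - K) • y₀ + (K • y₀ - -Pi.single i 1) := by
      rw [sub_smul, sub_neg_eq_add]
      abel
    rw [e]
    exact h.add _ (h.smul _ (by linarith) _ hy₀C) _ h1
  choose K hK using hnat
  have hKL : ∀ i, (K i : ℝ) • y₀ + Pi.single i 1 ∈ intL n := by
    intro i
    rw [Nat.cast_smul_eq_nsmul]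
    exact (intL n).add_mem ((intL n).nsmul_mem hy₀L _) (single_int i)
  refine ⟨y₀, insert y₀ (Finset.univ.image fun i => (K i : ℝ) • y₀ + Pi.single i 1), ?_⟩
  refine ⟨h.add, h.smul, h.deg_int, fun x hx h0 => h.deg_pos x (h.sub hx) h0, fun B => ?_, hy₀L, hy₀C,
    habs, fun η => ?_, fun x hx => ?_, fun y hy => ?_, fun φ hφ => ?_⟩
  · refine (finite_int (c * B)).subset ?_
    rintro x ⟨h1, h2, h3⟩
    exact ⟨h1, (hnorm x (h.sub h2)).trans (mul_le_mul_of_nonneg_left h3 hc.le)⟩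
  · let η' : (Fin n → ℝ) →L[ℝ] ℝ := LinearMap.toContinuousLinearMap η
    refine ⟨‖η'‖ * c, fun x hx => ?_⟩
    have h1 : |η x| ≤ ‖η'‖ * ‖x‖ := η'.le_opNorm x
    refine h1.trans ?_
    rw [mul_assoc]
    exact mul_le_mul_of_nonneg_left (hnorm x (h.sub hx)) (norm_nonneg _)
  · obtain ⟨i, hi⟩ : ∃ i, x i ≠ 0 := by
      by_contra hcon
      push Not at hcon
      exact hx (funext hcon)
    exact ⟨LinearMap.proj i, fun y hy => hy i, hi⟩
  · rcases Finset.mem_insert.1 hy with rfl | h1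
    · exact ⟨hy₀L, hy₀C⟩
    · obtain ⟨i, -, rfl⟩ := Finset.mem_image.1 h1
      exact ⟨hKL i, hK i⟩
  · refine LinearMap.pi_ext' fun i => LinearMap.ext_ring ?_
    have h1 := hφ _ (Finset.mem_insert_of_mem (Finset.mem_image_of_mem _ (Finset.mem_univ i)))
    have h2 := hφ _ (Finset.mem_insert_self _ _)
    rw [map_add, map_smul, h2, smul_zero, zero_add] at h1
    simpa using h1

/-- Two cones with disjoint interiors, in the form in which it comes out of the construction. -/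
theorem interior_disjoint {S : Finset (Fin n → ℝ)} {g : (Fin n → ℝ) ≃ₗ[ℝ] (Fin n → ℝ)}
    (h : ∃ φ : (Fin n → ℝ) →ₗ[ℝ] ℝ, φ ≠ 0 ∧ (∀ x ∈ cone S, 0 ≤ φ x) ∧ ∀ x ∈ cone S, φ (g x) ≤ 0) :
    interior (cone S) ∩ g '' cone S = ∅ := by
  obtain ⟨φ, hφ, h1, h2⟩ := h
  rw [Set.eq_empty_iff_forall_notMem]
  rintro _ ⟨hx, y, hy, rfl⟩
  obtain ⟨v, hv⟩ : ∃ v, φ v ≠ 0 := by
    by_contra hcon
    push Not at hcon
    exact hφ (LinearMap.ext hcon)
  obtain ⟨ε, hε, h3⟩ := ball_sub hx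
  -- a small multiple of `v` with the sign of `φ v`
  have key : ∀ w, ‖w‖ < ε → φ w ≤ 0 := by
    intro w hw
    have h4 := h1 _ (interior_subset (h3 w hw))
    have h5 := h2 y hy
    rw [map_sub] at h4
    linarith
  set s : ℝ := ε / (2 * (‖v‖ + 1)) with hs
  have hs0 : 0 < s := by positivity
  have hsv : ‖s • v‖ < ε := by
    rw [norm_smul, Real.norm_of_nonneg hs0.le, hs, div_mul_eq_mul_div, div_lt_iff₀ (by positivity)]
    have := norm_nonneg v
    nlinarith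
  have k1 := key (s • v) hsv
  have k2 := key (-(s • v)) (by rwa [norm_neg])
  rw [map_neg] at k2
  rw [map_smul, smul_eq_mul] at k1 k2
  have : s * φ v = 0 := by linarith
  rcases mul_eq_zero.1 this with h6 | h6
  · exact hs0.ne' h6
  · exact hv h6

end Pool.Agent.Q315.CC
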