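import Pool.Agent.Q315.CC.Siegel

/-!
# Rational polyhedral fundamental domains descend to the fixed subcone of a finite group

`Γ` acts on a lattice and a cone `C` in `W`, `G` is a finite subgroup, `q : W' → W` identifies `W'` with
the fixed vectors of `G`. If `C` is covered by the `Γ`-translates of a rational polyhedral subcone, then
the elements of `Γ` which commute with `G` have a rational polyhedral fundamental domain on
`C' = q⁻¹ C`.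
-/

set_option autoImplicit false

namespace Pool.Agent.Q315.CC

open Finset Filter Topology
open Pool.Agent.Y167

variable {W : Type*} [AddCommGroup W] [Module ℝ W]
variable {L : AddSubgroup W} {C : Set W} {ξ₀ : W →ₗ[ℝ] ℝ} {y₀ : W} {Y : Finset W}
variable {W' : Type*} [AddCommGroup W'] [Module ℝ W']
variable {L' : AddSubgroup W'} {C' : Set W'} {ξ' : W' →ₗ[ℝ] ℝ} {y' : W'} {Y' : Finset W'}

/-- Homomorphisms of `G` to `Γ` with a given composition with `ρ` fall into finitely many classes with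
respect to conjugation by elements of the kernel of `ρ`. -/
def FiniteLifts {Γ : Type*} [Group Γ] {M : Type*} [Monoid M] (ρ : Γ →* M) (G : Subgroup Γ) : Prop :=
  ∀ φ : G →* Γ, ∃ Φ : Set (G →* Γ), Φ.Finite ∧ ∀ ψ : G →* Γ, (∀ g, ρ (ψ g) = ρ (φ g)) →
    ∃ φ' ∈ Φ, ∃ k : Γ, ρ k = 1 ∧ ∀ g, ψ g = k * φ' g * k⁻¹

/-- The conjugate `g ↦ γ⁻¹ g γ` of the inclusion of `G`. -/
def conjHom {Γ : Type*} [Group Γ] (G : Subgroup Γ) (γ : Γ) : G →* Γ where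
  toFun := fun g => γ⁻¹ * g.1 * γ
  map_one' := by simp
  map_mul' := fun a b => by
    simp only [Subgroup.coe_mul]
    group

theorem cp_add {L : AddSubgroup W} {C : Set W} {x y : W} (hx : x ∈ Cp L C) (hy : y ∈ Cp L C) :
    x + y ∈ Cp L C := by
  classical
  obtain ⟨S, hS, hxS⟩ := hx
  obtain ⟨T, hT, hyT⟩ := hy
  refine ⟨S ∪ T, fun a ha => ?_, cone_add (cone_mono Finset.subset_union_left hxS)
    (cone_mono Finset.subset_union_right hyT)⟩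
  rcases Finset.mem_union.1 ha with h | h
  · exact hS a h
  · exact hT a h

theorem cp_smul {L : AddSubgroup W} {C : Set W} {x : W} {t : ℝ} (ht : 0 ≤ t) (hx : x ∈ Cp L C) :
    t • x ∈ Cp L C := by
  obtain ⟨S, hS, hxS⟩ := hx
  exact ⟨S, hS, cone_smul hxS ht⟩

/-- Averaging: the vectors of `W'` whose image lies in a given rational polyhedral subcone lie in a
rational polyhedral subcone. -/
theorem average (D : CData L C ξ₀ y₀ Y)
    {Γ : Type*} [Group Γ] (ρ : Γ →* (W ≃ₗ[ℝ] W)) (hL : ∀ γ, ∀ x ∈ L, ρ γ x ∈ L)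
    (hC : ∀ γ, ∀ x ∈ C, ρ γ x ∈ C) (G : Subgroup Γ) [Finite G]
    (q : W' →ₗ[ℝ] W) (hinj : Function.Injective q)
    (hfix : ∀ x, (∀ g ∈ G, ρ g x = x) ↔ ∃ x', q x' = x)
    (hqC : ∀ x', x' ∈ C' ↔ q x' ∈ C)
    (hqL : ∀ x', q x' ∈ L → ∃ k : ℕ, 0 < k ∧ k • x' ∈ L')
    (S : Finset W) (hS : ∀ a ∈ S, a ∈ L ∧ a ∈ C) :
    ∃ F : Finset W', (∀ a ∈ F, a ∈ L' ∧ a ∈ C') ∧ ∀ x', q x' ∈ cone S → x' ∈ cone F := by
  classical
  have : Fintype G := Fintype.ofFinite G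
  have hsmul : ∀ {x : W'} {t : ℝ}, 0 ≤ t → x ∈ C' → t • x ∈ C' := by
    intro x t ht hx
    rw [hqC, map_smul]
    exact D.smul _ ht _ ((hqC x).1 hx)
  -- the sum over the group
  let A : W → W := fun a => ∑ g : G, ρ g a
  have hAfix : ∀ a, ∃ b, q b = A a := by
    intro a
    refine (hfix _).1 fun h hh => ?_
    simp only [A]
    rw [map_sum]
    refine Fintype.sum_equiv (Equiv.mulLeft (⟨h, hh⟩ : G)) _ _ fun g => ?_
    simp only [Equiv.coe_mulLeft, Subgroup.coe_mul, map_mul]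
    rfl
  have hAL : ∀ a ∈ L, A a ∈ L := fun a ha => L.sum_mem fun g _ => hL g a ha
  have hAC : ∀ a ∈ C, A a ∈ C := by
    intro a ha
    have : ∀ s : Finset G, ∑ g ∈ s, ρ g a ∈ C := by
      intro s
      induction s using Finset.induction_on with
      | empty => simpa using zero_mem D
      | insert i s hi ih =>
        rw [Finset.sum_insert hi]
        exact D.add _ (hC i a ha) _ ih
    exact this Finset.univ
  have hb : ∀ a, a ∈ S → ∃ b : W', ∃ k : ℕ, 0 < k ∧ q b = A a ∧ k • b ∈ L' ∧ k • b ∈ C' := by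
    intro a ha
    obtain ⟨b, hb⟩ := hAfix a
    obtain ⟨k, hk, hkb⟩ := hqL b (by rw [hb]; exact hAL a (hS a ha).1)
    refine ⟨b, k, hk, hb, hkb, ?_⟩
    have : b ∈ C' := (hqC b).2 (by rw [hb]; exact hAC a (hS a ha).2)
    rw [← Nat.cast_smul_eq_nsmul ℝ]
    exact hsmul (Nat.cast_nonneg k) this
  choose! b k hk hqb hkL hkC using hb
  refine ⟨S.image fun a => k a • b a, ?_, ?_⟩
  · intro x hx
    obtain ⟨a, ha, rfl⟩ := Finset.mem_image.1 hx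
    exact ⟨hkL a ha, hkC a ha⟩
  · rintro x' ⟨c, hc, hx⟩
    have hcard : (0 : ℝ) < Fintype.card G := by exact_mod_cast Fintype.card_pos
    have hsum : (Fintype.card G : ℝ) • q x' = q (∑ a ∈ S, c a • b a) := by
      have h1 : ∀ g : G, ρ g (q x') = q x' := fun g => (hfix _).2 ⟨x', rfl⟩ g g.2
      have h2 : ∑ g : G, ρ g (q x') = (Fintype.card G : ℝ) • q x' := by
        rw [Finset.sum_congr rfl fun g _ => h1 g, Finset.sum_const, Finset.card_univ,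
          Nat.cast_smul_eq_nsmul]
      rw [← h2, hx, map_sum]
      have h3 : ∀ g : G, ρ g (∑ a ∈ S, c a • a) = ∑ a ∈ S, c a • ρ g a := by
        intro g
        rw [map_sum]
        exact Finset.sum_congr rfl fun a _ => by rw [map_smul]
      rw [Finset.sum_congr rfl fun g _ => h3 g, Finset.sum_comm]
      refine Finset.sum_congr rfl fun a ha => ?_
      rw [← Finset.smul_sum, map_smul, hqb a ha]
    have hx2 : x' = ∑ a ∈ S, ((Fintype.card G : ℝ)⁻¹ * c a * ((k a : ℝ)⁻¹)) • (k a • b a) := by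
      have h4 : (Fintype.card G : ℝ) • x' = ∑ a ∈ S, c a • b a := hinj (by rw [map_smul, hsum])
      have h5 : x' = (Fintype.card G : ℝ)⁻¹ • ∑ a ∈ S, c a • b a := by
        rw [← h4, smul_smul, inv_mul_cancel₀ hcard.ne', one_smul]
      rw [h5, Finset.smul_sum]
      refine Finset.sum_congr rfl fun a ha => ?_
      have hka : (0 : ℝ) < k a := by exact_mod_cast hk a ha
      rw [← Nat.cast_smul_eq_nsmul ℝ (k a) (b a), smul_smul, smul_smul, mul_assoc _ _ (k a : ℝ),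
        inv_mul_cancel₀ hka.ne', mul_one]
    rw [hx2]
    exact cone_sum _ _ fun a ha => cone_smul (mem_cone_self (Finset.mem_image_of_mem _ ha))
      (mul_nonneg (mul_nonneg (inv_nonneg.2 hcard.le) (hc a)) (inv_nonneg.2 (Nat.cast_nonneg _)))

/-- **Descent of rational polyhedral fundamental domains.** -/
theorem descent (D : CData L C ξ₀ y₀ Y) (D' : CData L' C' ξ' y' Y')
    {Γ : Type*} [Group Γ] (ρ : Γ →* (W ≃ₗ[ℝ] W)) (hL : ∀ γ, ∀ x ∈ L, ρ γ x ∈ L)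
    (hC : ∀ γ, ∀ x ∈ C, ρ γ x ∈ C) (G : Subgroup Γ) [Finite G] (hG : FiniteLifts ρ G)
    (q : W' →ₗ[ℝ] W) (hinj : Function.Injective q)
    (hfix : ∀ x, (∀ g ∈ G, ρ g x = x) ↔ ∃ x', q x' = x)
    (hqC : ∀ x', x' ∈ C' ↔ q x' ∈ C)
    (hqL : ∀ x', q x' ∈ L → ∃ k : ℕ, 0 < k ∧ k • x' ∈ L')
    (𝒢' : Subgroup (W' ≃ₗ[ℝ] W')) (hL' : ∀ g ∈ 𝒢', ∀ x ∈ L', g x ∈ L')
    (hC' : ∀ g ∈ 𝒢', ∀ x ∈ C', g x ∈ C')
    (hdesc : ∀ γ : Γ, (∀ g ∈ G, g * γ = γ * g) → ∃ g' ∈ 𝒢', ∀ x', q (g' x') = ρ γ (q x'))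
    (S : Finset W) (hS : ∀ a ∈ S, a ∈ L ∧ a ∈ C) (hcov : ∀ x ∈ C, ∃ γ, ρ γ x ∈ cone S) :
    ∃ S' : Finset W', (∀ a ∈ S', a ∈ L' ∧ a ∈ C') ∧
      (∀ x, x ∈ C' ↔ ∃ g ∈ 𝒢', g x ∈ cone S') ∧
      ∀ g ∈ 𝒢', g ≠ 1 → ∃ φ : W' →ₗ[ℝ] ℝ, φ ≠ 0 ∧ (∀ x ∈ cone S', 0 ≤ φ x) ∧
        ∀ x ∈ cone S', φ (g x) ≤ 0 := by
  classical
  have : Fintype G := Fintype.ofFinite G
  have hSi : ∀ γ, ∀ a ∈ S.image (ρ γ), a ∈ L ∧ a ∈ C := by
    intro γ a ha
    obtain ⟨b, hb, rfl⟩ := Finset.mem_image.1 ha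
    exact ⟨hL γ b (hS b hb).1, hC γ b (hS b hb).2⟩
  have hmulρ : ∀ (a b : Γ) (x : W), ρ (a * b) x = ρ a (ρ b x) := fun a b x => by
    rw [map_mul]; rfl
  have hρinv : ∀ (a : Γ) (x : W), ρ a⁻¹ (ρ a x) = x := fun a x => by
    rw [← hmulρ, inv_mul_cancel, map_one]; rfl
  have hρinv' : ∀ (a : Γ) (x : W), ρ a (ρ a⁻¹ x) = x := fun a x => by
    rw [← hmulρ, mul_inv_cancel, map_one]; rfl
  have himg : ∀ (γ : Γ) {x : W}, x ∈ cone S → ρ γ x ∈ cone (S.image (ρ γ)) := by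
    intro γ x hx
    exact cone_image (ρ γ : W →ₗ[ℝ] W) hx
  -- good elements
  let good : Γ → Prop := fun γ => ∃ x, (∀ g ∈ G, ρ g x = x) ∧ Inner C y₀ x ∧ ρ γ⁻¹ x ∈ cone S
  -- finitely many compositions
  let rng : Subgroup (W ≃ₗ[ℝ] W) := ρ.range
  have hrL : ∀ g ∈ rng, ∀ x ∈ L, g x ∈ L := by
    rintro _ ⟨γ, rfl⟩ x hx
    exact hL γ x hx
  have hrC : ∀ g ∈ rng, ∀ x ∈ C, g x ∈ C := by
    rintro _ ⟨γ, rfl⟩ x hx
    exact hC γ x hx
  let f : Γ → (G → (W ≃ₗ[ℝ] W)) := fun γ g => ρ (γ⁻¹ * g.1 * γ)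
  have hfin : (f '' {γ | good γ}).Finite := by
    have h1 : ∀ g : G, {δ : W ≃ₗ[ℝ] W | δ ∈ rng ∧ ∃ z ∈ cone (S.image (ρ g.1)),
        Inner C y₀ z ∧ δ z ∈ cone S}.Finite := fun g => siegel D rng hrL hrC _ _ (hSi g.1) hS
    refine ((Set.Finite.pi' fun g : G => (h1 g).image fun δ => δ * ρ g.1)).subset ?_
    rintro _ ⟨γ, ⟨x, hx1, hx2, hx3⟩, rfl⟩ g
    refine ⟨ρ (γ⁻¹ * g.1 * γ * g.1⁻¹), ⟨⟨_, rfl⟩, ρ g.1 (ρ γ⁻¹ x), himg _ hx3, ?_, ?_⟩, ?_⟩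
    · exact inner_map D (fun x hx => hC _ x hx) (inner_map D (fun x hx => hC _ x hx) hx2)
    · have e : ρ (γ⁻¹ * g.1 * γ * g.1⁻¹) (ρ g.1 (ρ γ⁻¹ x)) = ρ γ⁻¹ x := by
        rw [← hmulρ, ← hmulρ]
        have : γ⁻¹ * g.1 * γ * g.1⁻¹ * g.1 * γ⁻¹ = γ⁻¹ * g.1 := by group
        rw [this, hmulρ, hx1 g.1 g.2]
      rw [e]
      exact hx3
    · simp only [f]
      rw [← map_mul, inv_mul_cancel_right]
  -- finitely many homomorphisms up to conjugation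
  have hΦ : ∃ Φ : Set (G →* Γ), Φ.Finite ∧ ∀ γ, good γ → ∃ φ' ∈ Φ, ∃ k : Γ, ρ k = 1 ∧
      ∀ g, conjHom G γ g = k * φ' g * k⁻¹ := by
    have h1 : ∀ e ∈ f '' {γ | good γ}, ∃ Φ : Set (G →* Γ), Φ.Finite ∧ ∀ γ, f γ = e →
        ∃ φ' ∈ Φ, ∃ k : Γ, ρ k = 1 ∧ ∀ g, conjHom G γ g = k * φ' g * k⁻¹ := by
      rintro _ ⟨γ, -, rfl⟩
      obtain ⟨Φ, hΦ, h⟩ := hG (conjHom G γ)
      refine ⟨Φ, hΦ, fun γ₁ h1 => h _ fun g => ?_⟩
      exact congrFun h1 g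
    choose! Φ hΦ1 hΦ2 using h1
    refine ⟨⋃ e ∈ f '' {γ | good γ}, Φ e, hfin.biUnion fun e he => hΦ1 e he, fun γ hγ => ?_⟩
    obtain ⟨φ', h1, h2⟩ := hΦ2 (f γ) ⟨γ, hγ, rfl⟩ γ rfl
    exact ⟨φ', Set.mem_biUnion ⟨γ, hγ, rfl⟩ h1, h2⟩
  obtain ⟨Φ, hΦf, hΦ⟩ := hΦ
  -- representatives
  let rep : (G →* Γ) → Γ := fun φ' => if h : ∃ γ, good γ ∧ ∃ k : Γ, ρ k = 1 ∧
    ∀ g, conjHom G γ g = k * φ' g * k⁻¹ then h.choose else 1
  have hrep : ∀ φ', (∃ γ, good γ ∧ ∃ k : Γ, ρ k = 1 ∧ ∀ g, conjHom G γ g = k * φ' g * k⁻¹) →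
      ∃ k : Γ, ρ k = 1 ∧ ∀ g, conjHom G (rep φ') g = k * φ' g * k⁻¹ := by
    intro φ' h
    simp only [rep, dif_pos h]
    exact h.choose_spec.2
  have hav := fun γ => average (L' := L') (C' := C') D ρ hL hC G q hinj hfix hqC hqL (S.image (ρ γ)) (hSi γ)
  choose Fγ hF1 hF2 using hav
  let F : Finset W' := hΦf.toFinset.biUnion fun φ' => Fγ (rep φ')
  have hF : ∀ a ∈ F, a ∈ L' ∧ a ∈ C' := by
    intro a ha
    obtain ⟨φ', -, h⟩ := Finset.mem_biUnion.1 ha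
    exact hF1 _ a h
  -- interior points of `C'`
  have hinner : ∀ x', (∃ t : ℝ, 0 < t ∧ x' - t • y' ∈ C') → Inner C y₀ (q x') := by
    rintro x' ⟨t, ht, hx⟩
    -- the sum of the translates of `y₀`
    have hz : ∃ b, q b = ∑ g : G, ρ g y₀ := by
      refine (hfix _).1 fun h hh => ?_
      rw [map_sum]
      refine Fintype.sum_equiv (Equiv.mulLeft (⟨h, hh⟩ : G)) _ _ fun g => ?_
      simp only [Equiv.coe_mulLeft, Subgroup.coe_mul, map_mul]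
      rfl
    obtain ⟨b, hb⟩ := hz
    obtain ⟨K, hK, hKb⟩ := D'.y_int b
    have h1 := (hqC _).1 hKb
    rw [map_sub, map_smul, hb] at h1
    have h2 : ∑ g : G, ρ g y₀ - y₀ ∈ C := by
      have e : ∑ g : G, ρ g y₀ - y₀ = ∑ g ∈ Finset.univ.erase (1 : G), ρ g y₀ := by
        rw [← Finset.add_sum_erase _ _ (Finset.mem_univ (1 : G))]
        simp only [Subgroup.coe_one, map_one]
        rw [add_comm]
        exact add_sub_cancel_right _ _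
      rw [e]
      have : ∀ s : Finset G, ∑ g ∈ s, ρ g y₀ ∈ C := by
        intro s
        induction s using Finset.induction_on with
        | empty => simpa using zero_mem D
        | insert i s hi ih =>
          rw [Finset.sum_insert hi]
          exact D.add _ (hC i _ D.y_N) _ ih
      exact this _
    have h3 := (hqC _).1 hx
    rw [map_sub, map_smul] at h3
    refine ⟨t / K, by positivity, ?_⟩
    have e : q x' - (t / K) • y₀ = (q x' - t • q y') + ((t / K) • (K • q y' - ∑ g : G, ρ g y₀) +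
        (t / K) • (∑ g : G, ρ g y₀ - y₀)) := by
      rw [smul_sub, smul_sub, smul_smul, div_mul_cancel₀ _ hK.ne']
      abel
    rw [e]
    exact D.add _ h3 _ (D.add _ (D.smul _ (by positivity) _ h1) _ (D.smul _ (by positivity) _ h2))
  have hcov' : ∀ x', (∃ t : ℝ, 0 < t ∧ x' - t • y' ∈ C') → ∃ g ∈ 𝒢', g x' ∈ cone F := by
    intro x' hx
    have hin := hinner x' hx
    have hfx : ∀ g ∈ G, ρ g (q x') = q x' := (hfix _).2 ⟨x', rfl⟩
    have hxC : q x' ∈ C := by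
      obtain ⟨t, ht, h1⟩ := hin
      have := D.add _ h1 _ (D.smul _ ht.le _ D.y_N)
      rwa [sub_add_cancel] at this
    obtain ⟨γ₀, hγ₀⟩ := hcov _ hxC
    set γ : Γ := γ₀⁻¹ with hγ
    have hgood : good γ := ⟨q x', hfx, hin, by rw [hγ, inv_inv]; exact hγ₀⟩
    obtain ⟨φ', hφ', k1, hk1, h1⟩ := hΦ γ hgood
    obtain ⟨k2, hk2, h2⟩ := hrep φ' ⟨γ, hgood, k1, hk1, h1⟩
    set r := rep φ' with hr
    -- `γ⁻¹ g γ = k r⁻¹ g r k⁻¹`
    set k : Γ := k1 * k2⁻¹ with hk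
    have hρk : ρ k = 1 := by
      rw [hk, map_mul, hk1, map_inv, hk2, inv_one, one_mul]
    have hconj : ∀ g ∈ G, γ⁻¹ * g * γ = k * (r⁻¹ * g * r) * k⁻¹ := by
      intro g hg
      have h3 : γ⁻¹ * g * γ = k1 * φ' ⟨g, hg⟩ * k1⁻¹ := h1 ⟨g, hg⟩
      have h4 : r⁻¹ * g * r = k2 * φ' ⟨g, hg⟩ * k2⁻¹ := h2 ⟨g, hg⟩
      rw [h3, h4, hk]
      group
    -- the inverse of `n = γ k r⁻¹`
    have hcomm : ∀ g ∈ G, g * (r * k⁻¹ * γ⁻¹) = r * k⁻¹ * γ⁻¹ * g := by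
      intro g hg
      have h3 := hconj g hg
      have h4 : g = γ * (k * (r⁻¹ * g * r) * k⁻¹) * γ⁻¹ := by
        rw [← h3]; group
      calc g * (r * k⁻¹ * γ⁻¹) = r * k⁻¹ * γ⁻¹ * (γ * (k * (r⁻¹ * g * r) * k⁻¹) * γ⁻¹) := by group
        _ = r * k⁻¹ * γ⁻¹ * g := by rw [← h4]
    obtain ⟨g', hg', h5⟩ := hdesc _ hcomm
    refine ⟨g', hg', ?_⟩
    have h6 : q (g' x') ∈ cone (S.image (ρ r)) := by
      rw [h5, hmulρ, hmulρ]
      have h7 : ρ k⁻¹ (ρ γ⁻¹ (q x')) = ρ γ⁻¹ (q x') := by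
        rw [map_inv ρ k, hρk, inv_one]; rfl
      rw [h7, hγ, inv_inv]
      exact himg r hγ₀
    refine cone_mono ?_ (hF2 r _ h6)
    exact Finset.subset_biUnion_of_mem (fun φ' => Fγ (rep φ')) (hΦf.mem_toFinset.2 hφ')
  obtain ⟨S', hS', hcp, hsep⟩ := D'.domain 𝒢' hL' hC' F hF hcov'
  refine ⟨S', hS', fun x => ?_, hsep⟩
  rw [← hcp]
  constructor
  · intro hx
    obtain ⟨γ, hγ⟩ := hcov _ ((hqC x).1 hx)
    have h1 : q x ∈ cone (S.image (ρ γ⁻¹)) := by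
      have := himg γ⁻¹ hγ
      rwa [hρinv] at this
    exact ⟨Fγ γ⁻¹, hF1 _, hF2 _ x h1⟩
  · rintro ⟨S1, hS1, hx⟩
    exact D'.cone_Nf hS1 hx

end Pool.Agent.Q315.CC
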