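import Pool.Agent.Q315.CC.Data

/-!
# Groups acting on cones: quotients, products, faces

`ConeData`: the real vector space `ℝ ^ n` with the lattice `ℤ ^ n`, a closed cone `N`, a cone `C`, a
linear form, and a group acting by linear automorphisms. For a variety `X`: `ℝ ^ n = N^1(X)`, `ℤ ^ n` the
integral classes, `N` the nef cone or the closed movable cone, `C` its intersection with the effective
cone, `Γ` the group of automorphisms, or of pseudo-automorphisms, acting by push-forward.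
-/

set_option autoImplicit false

namespace Pool.Agent.Q315.CC

open Finset Filter Topology
open Pool.Agent.Y167

/-- A space of classes `ℝ ^ n` with its integral classes `ℤ ^ n`, a closed cone `N`, a cone `C`, a degree
and a group `Γ` acting linearly. -/
structure ConeData where
  /-- the dimension -/
  n : ℕ
  /-- the closed cone -/
  N : Set (Fin n → ℝ)
  /-- the cone of the effective classes in it -/
  C : Set (Fin n → ℝ)
  /-- the degree -/
  deg : (Fin n → ℝ) →ₗ[ℝ] ℝ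
  /-- the group -/
  Γ : Type
  [grp : Group Γ]
  /-- the action -/
  act : Γ →* ((Fin n → ℝ) ≃ₗ[ℝ] (Fin n → ℝ))

attribute [instance] ConeData.grp

/-- The known properties of the data of a variety. -/
structure IsConeData (X : ConeData) : Prop where
  pair : IsConePair X.N X.C X.deg
  act_int : ∀ g : X.Γ, ∀ x ∈ intL X.n, X.act g x ∈ intL X.n
  act_cone : ∀ g : X.Γ, ∀ x ∈ X.C, X.act g x ∈ X.C
  lifts : ∀ G : Subgroup X.Γ, Finite G → FiniteLifts X.act G

/-- The cone conjecture for `X`: there is a rational polyhedral cone `Π = cone S` such that `C` is the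
union of its translates, and the interiors of `Π` and of `g Π` are disjoint if `g` acts nontrivially. -/
def HasDomain (X : ConeData) : Prop :=
  ∃ S : Finset (Fin X.n → ℝ), (∀ a ∈ S, a ∈ intL X.n) ∧ X.C = ⋃ g : X.Γ, X.act g '' cone S ∧
    ∀ g : X.Γ, X.act g ≠ 1 → interior (cone S) ∩ interior (X.act g '' cone S) = ∅

/-- `C` is covered by the translates of a rational polyhedral subcone. -/
def Covered (X : ConeData) : Prop :=
  ∃ S : Finset (Fin X.n → ℝ), (∀ a ∈ S, a ∈ intL X.n ∧ a ∈ X.C) ∧ ∀ x ∈ X.C, ∃ g : X.Γ, X.act g x ∈ cone S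

/-- `Y` is the quotient of `X` by the finite group `G`, and `q` is the pullback of classes. -/
structure IsQuotient (X Y : ConeData) (G : Subgroup X.Γ)
    (q : (Fin Y.n → ℝ) →ₗ[ℝ] (Fin X.n → ℝ)) : Prop where
  fin : Finite G
  inj : Function.Injective q
  fix : ∀ x, (∀ g ∈ G, X.act g x = x) ↔ ∃ y, q y = x
  cone : ∀ y, y ∈ Y.C ↔ q y ∈ X.C
  int : ∀ y, q y ∈ intL X.n → ∃ k : ℕ, 0 < k ∧ k • y ∈ intL Y.n
  desc : ∀ f : X.Γ, (∀ g ∈ G, g * f = f * g) → ∃ f' : Y.Γ, ∀ y, q (Y.act f' y) = X.act f (q y)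

/-- `X` is the product of the `Z i`, and its classes decompose; `p i` is the pullback of classes. -/
structure IsProduct (X : ConeData) {m : ℕ} (Z : Fin m → ConeData)
    (p : ∀ i, (Fin (Z i).n → ℝ) →ₗ[ℝ] (Fin X.n → ℝ)) : Prop where
  int : ∀ i, ∀ z ∈ intL (Z i).n, p i z ∈ intL X.n
  pull : ∀ i, ∀ z ∈ (Z i).C, p i z ∈ X.C
  sum : ∀ x ∈ X.C, ∃ z : ∀ i, Fin (Z i).n → ℝ, (∀ i, z i ∈ (Z i).C) ∧ x = ∑ i, p i (z i)
  aut : ∀ f : ∀ i, (Z i).Γ, ∃ g : X.Γ, ∀ z : ∀ i, Fin (Z i).n → ℝ,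
    X.act g (∑ i, p i (z i)) = ∑ i, p i ((Z i).act (f i) (z i))

/-- The classes of `Y` are a face of the classes of `X`, and `q` is the pullback of classes: a
contraction `X → Y`. -/
structure IsContraction (X Y : ConeData) (q : (Fin Y.n → ℝ) →ₗ[ℝ] (Fin X.n → ℝ)) : Prop where
  inj : Function.Injective q
  cone : ∀ y, y ∈ Y.C ↔ q y ∈ X.C
  int : ∀ y, q y ∈ intL X.n → ∃ k : ℕ, 0 < k ∧ k • y ∈ intL Y.n
  face : ∀ x ∈ X.C, ∀ x' ∈ X.C, (∃ y, q y = x + x') → ∃ y, q y = x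
  desc : ∀ f : X.Γ, (∀ y, ∃ y', X.act f (q y) = q y') →
    ∃ f' : Y.Γ, ∀ y, q (Y.act f' y) = X.act f (q y)

theorem act_mul (X : ConeData) (a b : X.Γ) (x : Fin X.n → ℝ) :
    X.act (a * b) x = X.act a (X.act b x) := by
  rw [map_mul]; rfl

theorem act_inv (X : ConeData) (a : X.Γ) (x : Fin X.n → ℝ) : X.act a⁻¹ (X.act a x) = x := by
  rw [← act_mul, inv_mul_cancel, map_one]; rfl

theorem act_inv' (X : ConeData) (a : X.Γ) (x : Fin X.n → ℝ) : X.act a (X.act a⁻¹ x) = x := by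
  rw [← act_mul, mul_inv_cancel, map_one]; rfl

theorem cone_sub {X : ConeData} (h : IsConeData X) {S : Finset (Fin X.n → ℝ)}
    (hS : ∀ a ∈ S, a ∈ X.C) {x : Fin X.n → ℝ} (hx : x ∈ cone S) : x ∈ X.C := by
  obtain ⟨y₀, Y, D⟩ := exists_cdata h.pair
  exact cone_ind (p := fun x => x ∈ X.C) (zero_mem D) (fun x y hx hy => h.pair.add x hx y hy)
    (fun t x ht hx => h.pair.smul t ht x hx) hS hx

theorem HasDomain.covered {X : ConeData} (h : HasDomain X) : Covered X := by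
  obtain ⟨S, hS, hC, -⟩ := h
  refine ⟨S, fun a ha => ⟨hS a ha, ?_⟩, fun x hx => ?_⟩
  · rw [hC]
    exact Set.mem_iUnion.2 ⟨1, a, mem_cone_self ha, by rw [map_one]; rfl⟩
  · rw [hC] at hx
    obtain ⟨g, y, hy, rfl⟩ := Set.mem_iUnion.1 hx
    exact ⟨g⁻¹, by rw [act_inv]; exact hy⟩

/-- From the output of the reduction theorems to the fundamental domain. -/
theorem HasDomain.of {X : ConeData} {S : Finset (Fin X.n → ℝ)}
    (hS : ∀ a ∈ S, a ∈ intL X.n ∧ a ∈ X.C)
    (hC : ∀ x, x ∈ X.C ↔ ∃ g ∈ X.act.range, g x ∈ cone S)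
    (hsep : ∀ g ∈ X.act.range, g ≠ 1 → ∃ φ : (Fin X.n → ℝ) →ₗ[ℝ] ℝ, φ ≠ 0 ∧
      (∀ x ∈ cone S, 0 ≤ φ x) ∧ ∀ x ∈ cone S, φ (g x) ≤ 0) : HasDomain X := by
  refine ⟨S, fun a ha => (hS a ha).1, ?_, fun g hg => ?_⟩
  · ext x
    rw [hC x]
    constructor
    · rintro ⟨_, ⟨g, rfl⟩, hx⟩
      exact Set.mem_iUnion.2 ⟨g⁻¹, _, hx, act_inv X g x⟩
    · intro hx
      obtain ⟨g, y, hy, rfl⟩ := Set.mem_iUnion.1 hx
      exact ⟨X.act g⁻¹, ⟨_, rfl⟩, by rw [act_inv]; exact hy⟩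
  · have h1 := interior_disjoint (hsep (X.act g) ⟨g, rfl⟩ hg)
    rw [Set.eq_empty_iff_forall_notMem] at h1 ⊢
    rintro x ⟨hx1, hx2⟩
    exact h1 x ⟨hx1, interior_subset hx2⟩

/-- Reduction to coverings. -/
theorem covered_iff {X : ConeData} (h : IsConeData X) : Covered X ↔ HasDomain X := by
  refine ⟨?_, HasDomain.covered⟩
  rintro ⟨S, hS, hcov⟩
  obtain ⟨y₀, Y, D⟩ := exists_cdata h.pair
  have hL : ∀ g ∈ X.act.range, ∀ x ∈ intL X.n, g x ∈ intL X.n := by
    rintro _ ⟨g, rfl⟩ x hx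
    exact h.act_int g x hx
  have hC : ∀ g ∈ X.act.range, ∀ x ∈ X.C, g x ∈ X.C := by
    rintro _ ⟨g, rfl⟩ x hx
    exact h.act_cone g x hx
  obtain ⟨S', hS', hcp, hsep⟩ := D.domain X.act.range hL hC S hS (by
    rintro x ⟨t, ht, hx⟩
    have hxC : x ∈ X.C := by
      have := h.pair.add _ hx _ (h.pair.smul _ ht.le _ D.y_N)
      rwa [sub_add_cancel] at this
    obtain ⟨g, hg⟩ := hcov x hxC
    exact ⟨X.act g, ⟨g, rfl⟩, hg⟩)
  refine HasDomain.of hS' (fun x => ?_) hsep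
  rw [← hcp]
  constructor
  · intro hx
    obtain ⟨g, hg⟩ := hcov x hx
    classical
    refine ⟨S.image (X.act g⁻¹), fun a ha => ?_, ?_⟩
    · obtain ⟨b, hb, rfl⟩ := Finset.mem_image.1 ha
      exact ⟨h.act_int _ b (hS b hb).1, h.act_cone _ b (hS b hb).2⟩
    · have := cone_image (X.act g⁻¹ : (Fin X.n → ℝ) →ₗ[ℝ] (Fin X.n → ℝ)) hg
      have e : (X.act g⁻¹ : (Fin X.n → ℝ) →ₗ[ℝ] (Fin X.n → ℝ)) (X.act g x) = x := act_inv X g x
      rw [e] at this
      exact this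
  · rintro ⟨S1, hS1, hx⟩
    exact D.cone_Nf hS1 hx

/-- **Quotients by finite groups.** -/
theorem quotient {X Y : ConeData} (hX : IsConeData X) (hY : IsConeData Y) {G : Subgroup X.Γ}
    {q : (Fin Y.n → ℝ) →ₗ[ℝ] (Fin X.n → ℝ)} (h : IsQuotient X Y G q) (hc : Covered X) :
    HasDomain Y := by
  obtain ⟨S, hS, hcov⟩ := hc
  obtain ⟨y₀, T, D⟩ := exists_cdata hX.pair
  obtain ⟨y', T', D'⟩ := exists_cdata hY.pair
  have := h.fin
  obtain ⟨S', hS', hcp, hsep⟩ := descent D D' X.act hX.act_int hX.act_cone G (hX.lifts G h.fin) q h.inj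
    h.fix h.cone h.int Y.act.range (by
      rintro _ ⟨g, rfl⟩ x hx
      exact hY.act_int g x hx) (by
      rintro _ ⟨g, rfl⟩ x hx
      exact hY.act_cone g x hx) (by
      intro f hf
      obtain ⟨f', hf'⟩ := h.desc f hf
      exact ⟨Y.act f', ⟨f', rfl⟩, hf'⟩) S hS hcov
  exact HasDomain.of hS' hcp hsep

/-- **Products.** -/
theorem product {X : ConeData} {m : ℕ} {Z : Fin m → ConeData}
    {p : ∀ i, (Fin (Z i).n → ℝ) →ₗ[ℝ] (Fin X.n → ℝ)} (h : IsProduct X Z p)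
    (hc : ∀ i, Covered (Z i)) : Covered X := by
  classical
  choose S hS hcov using hc
  refine ⟨Finset.univ.biUnion fun i => (S i).image (p i), fun a ha => ?_, fun x hx => ?_⟩
  · obtain ⟨i, -, h1⟩ := Finset.mem_biUnion.1 ha
    obtain ⟨b, hb, rfl⟩ := Finset.mem_image.1 h1
    exact ⟨h.int i b (hS i b hb).1, h.pull i b (hS i b hb).2⟩
  · obtain ⟨z, hz, rfl⟩ := h.sum x hx
    choose f hf using fun i => hcov i (z i) (hz i)
    obtain ⟨g, hg⟩ := h.aut f
    refine ⟨g, ?_⟩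
    rw [hg]
    refine cone_sum _ _ fun i _ => ?_
    refine cone_mono ?_ (cone_image (p i) (hf i))
    exact Finset.subset_biUnion_of_mem (fun i => (S i).image (p i)) (Finset.mem_univ i)

/-- **Contractions.** -/
theorem contraction {X Y : ConeData} (hX : IsConeData X) (hY : IsConeData Y)
    {q : (Fin Y.n → ℝ) →ₗ[ℝ] (Fin X.n → ℝ)} (h : IsContraction X Y q) (hc : Covered X) :
    HasDomain Y := by
  classical
  obtain ⟨S, hS, hcov⟩ := hc
  obtain ⟨y', T', D'⟩ := exists_cdata hY.pair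
  have hCadd := hX.pair.add
  have hCsmul := hX.pair.smul
  -- a set of generators is good for `g` if the translate of an interior point has it as support
  let good : Finset (Fin X.n → ℝ) → X.Γ → Prop := fun I g => ∃ y, Inner Y.C y' y ∧
    ∃ c : (Fin X.n → ℝ) → ℝ, (∀ a ∈ I, 0 < c a) ∧ X.act g (q y) = ∑ a ∈ I, c a • a
  -- a good set determines the image of the classes of `Y`
  have key : ∀ I ⊆ S, ∀ g1 g2, good I g1 → good I g2 → ∀ w, ∃ w', X.act (g1⁻¹ * g2) (q w) = q w' := by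
    rintro I hI g1 g2 ⟨y1, hy1, d, hd, h1⟩ ⟨y2, hy2, c, hc, h2⟩ w
    obtain ⟨t, ht, hy2⟩ := hy2
    obtain ⟨A, hA, hA1⟩ := D'.y_int w
    obtain ⟨B, hB, hB1⟩ := D'.y_int (-w)
    -- `K y2 - w` and `K y2 + w` are in the cone
    set K : ℝ := (A + B) / t with hK
    have hK0 : 0 < K := by positivity
    have hu1 : K • y2 - w ∈ Y.C := by
      have e : K • y2 - w = K • (y2 - t • y') + (B • y' + (A • y' - w)) := by
        rw [smul_sub, smul_smul, hK, div_mul_cancel₀ _ ht.ne', add_smul]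
        abel
      rw [e]
      exact D'.add _ (D'.smul _ hK0.le _ hy2) _ (D'.add _ (D'.smul _ hB.le _ D'.y_N) _ hA1)
    have hu2 : K • y2 + w ∈ Y.C := by
      have e : K • y2 + w = K • (y2 - t • y') + (A • y' + (B • y' - -w)) := by
        rw [smul_sub, smul_smul, hK, div_mul_cancel₀ _ ht.ne', add_smul]
        abel
      rw [e]
      exact D'.add _ (D'.smul _ hK0.le _ hy2) _ (D'.add _ (D'.smul _ hA.le _ D'.y_N) _ hB1)
    have hv1 : X.act g2 (q (K • y2 - w)) ∈ X.C := hX.act_cone _ _ ((h.cone _).1 hu1)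
    have hv2 : X.act g2 (q (K • y2 + w)) ∈ X.C := hX.act_cone _ _ ((h.cone _).1 hu2)
    -- a large multiple of the first point
    obtain ⟨M, hM⟩ : ∃ M : ℝ, ∀ a ∈ I, 2 * K * c a ≤ M * d a := by
      refine ⟨∑ a ∈ I, 2 * K * c a / d a, fun a ha => ?_⟩
      have h3 : 2 * K * c a / d a ≤ ∑ a ∈ I, 2 * K * c a / d a :=
        Finset.single_le_sum (f := fun a => 2 * K * c a / d a)
          (fun b hb => div_nonneg (by have := hc b hb; positivity) (hd b hb).le) ha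
      calc 2 * K * c a = 2 * K * c a / d a * d a := (div_mul_cancel₀ _ (hd a ha).ne').symm
        _ ≤ _ := mul_le_mul_of_nonneg_right h3 (hd a ha).le
    have hrest : M • X.act g1 (q y1) - (X.act g2 (q (K • y2 - w)) + X.act g2 (q (K • y2 + w))) ∈ X.C := by
      have e : M • X.act g1 (q y1) - (X.act g2 (q (K • y2 - w)) + X.act g2 (q (K • y2 + w))) =
          ∑ a ∈ I, (M * d a - 2 * K * c a) • a := by
        have e1 : X.act g2 (q (K • y2 - w)) + X.act g2 (q (K • y2 + w)) =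
            (2 * K) • X.act g2 (q y2) := by
          rw [← map_add, ← map_add, ← map_smul, ← map_smul]
          congr 2
          rw [two_mul, add_smul]
          abel
        rw [e1, h1, h2, Finset.smul_sum, Finset.smul_sum, ← Finset.sum_sub_distrib]
        refine Finset.sum_congr rfl fun a _ => ?_
        rw [smul_smul, smul_smul, ← sub_smul]
      rw [e]
      refine cone_sub hX (fun a ha => (hS a ha).2) (cone_sum I _ fun a ha => ?_)
      exact cone_smul (mem_cone_self (hI ha)) (sub_nonneg.2 (hM a ha))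
    -- the face property
    have hr' := hX.act_cone g1⁻¹ _ hrest
    have hw1 := hX.act_cone g1⁻¹ _ hv1
    have hw2 := hX.act_cone g1⁻¹ _ hv2
    have htot : X.act g1⁻¹ (M • X.act g1 (q y1) - (X.act g2 (q (K • y2 - w)) +
        X.act g2 (q (K • y2 + w)))) + X.act g1⁻¹ (X.act g2 (q (K • y2 - w))) +
        X.act g1⁻¹ (X.act g2 (q (K • y2 + w))) = q (M • y1) := by
      rw [map_sub (X.act g1⁻¹), map_add (X.act g1⁻¹), map_smul (X.act g1⁻¹), act_inv, map_smul q]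
      abel
    have f1 : ∃ y, q y = X.act g1⁻¹ (X.act g2 (q (K • y2 + w))) := by
      refine h.face _ hw2 _ (hCadd _ hr' _ hw1) ⟨M • y1, ?_⟩
      rw [← htot]
      abel
    have f2 : ∃ y, q y = X.act g1⁻¹ (X.act g2 (q (K • y2 - w))) := by
      refine h.face _ hw1 _ (hCadd _ hr' _ hw2) ⟨M • y1, ?_⟩
      rw [← htot]
      abel
    obtain ⟨z1, hz1⟩ := f1
    obtain ⟨z2, hz2⟩ := f2
    refine ⟨(1 / 2 : ℝ) • (z1 - z2), ?_⟩
    rw [map_smul, map_sub, hz1, hz2, ← map_sub, ← map_sub, ← map_sub, act_mul]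
    have e : K • y2 + w - (K • y2 - w) = (2 : ℝ) • w := by
      rw [two_smul]; abel
    rw [e, map_smul, map_smul, map_smul, smul_smul]
    norm_num
  -- representatives
  let rep : Finset (Fin X.n → ℝ) → X.Γ := fun I => if h : ∃ g, good I g then h.choose else 1
  have hrep : ∀ I, (∃ g, good I g) → good I (rep I) := by
    intro I hI
    simp only [rep, dif_pos hI]
    exact hI.choose_spec
  -- the generators of the pieces
  have hgen : ∀ I ⊆ S, (∃ g, good I g) → ∀ a ∈ I, ∃ (b : Fin Y.n → ℝ) (k : ℕ), 0 < k ∧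
      q b = X.act (rep I)⁻¹ a ∧ k • b ∈ intL Y.n ∧ k • b ∈ Y.C := by
    intro I hI hg a ha
    obtain ⟨y, hy, c, hc, h1⟩ := hrep I hg
    have haS := hS a (hI ha)
    have h2 : X.act (rep I)⁻¹ a ∈ X.C := hX.act_cone _ _ haS.2
    have h3 : X.act (rep I)⁻¹ (∑ b ∈ I.erase a, c b • b) ∈ X.C := by
      refine hX.act_cone _ _ (cone_sub hX (fun a ha => (hS a ha).2) (cone_sum _ _ fun b hb => ?_))
      exact cone_smul (mem_cone_self (hI (Finset.mem_of_mem_erase hb)))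
        (hc b (Finset.mem_of_mem_erase hb)).le
    have h4 : ∃ y, q y = c a • X.act (rep I)⁻¹ a := by
      refine h.face _ (hCsmul _ (hc a ha).le _ h2) _ h3 ⟨y, ?_⟩
      rw [← map_smul, ← map_add, Finset.add_sum_erase I (fun b => c b • b) ha, ← h1, act_inv]
    obtain ⟨b', hb'⟩ := h4
    have hb : q ((c a)⁻¹ • b') = X.act (rep I)⁻¹ a := by
      rw [map_smul, hb', smul_smul, inv_mul_cancel₀ (hc a ha).ne', one_smul]
    obtain ⟨k, hk, hkb⟩ := h.int ((c a)⁻¹ • b') (by rw [hb]; exact hX.act_int _ _ haS.1)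
    refine ⟨(c a)⁻¹ • b', k, hk, hb, hkb, ?_⟩
    rw [← Nat.cast_smul_eq_nsmul ℝ]
    exact hY.pair.smul _ (Nat.cast_nonneg _) _ ((h.cone _).2 (by rw [hb]; exact h2))
  let good' : Finset (Finset (Fin X.n → ℝ)) := S.powerset.filter fun I => ∃ g, good I g
  have hgen' : ∀ I : good', ∀ a : I.1, ∃ (b : Fin Y.n → ℝ) (k : ℕ), 0 < k ∧
      q b = X.act (rep I.1)⁻¹ a.1 ∧ k • b ∈ intL Y.n ∧ k • b ∈ Y.C := fun I a => by
    have h1 := Finset.mem_filter.1 I.2
    exact hgen I.1 (Finset.mem_powerset.1 h1.1) h1.2 a.1 a.2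
  choose b k hk hb hbL hbC using hgen'
  let F : Finset (Fin Y.n → ℝ) := Finset.univ.biUnion fun I : good' =>
    Finset.univ.image fun a : I.1 => k I a • b I a
  have hF : ∀ a ∈ F, a ∈ intL Y.n ∧ a ∈ Y.C := by
    intro a ha
    obtain ⟨I, -, h1⟩ := Finset.mem_biUnion.1 ha
    obtain ⟨c, -, rfl⟩ := Finset.mem_image.1 h1
    exact ⟨hbL I c, hbC I c⟩
  -- the interior points are covered
  have hcovI : ∀ y, Inner Y.C y' y → ∃ g : Y.Γ, Y.act g y ∈ cone F := by
    intro y hy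
    have hyC : y ∈ Y.C := by
      obtain ⟨t, ht, h1⟩ := hy
      have := hY.pair.add _ h1 _ (hY.pair.smul _ ht.le _ D'.y_N)
      rwa [sub_add_cancel] at this
    obtain ⟨g, c, hc, hg⟩ := hcov _ ((h.cone _).1 hyC)
    let I := S.filter fun a => c a ≠ 0
    have hIS : I ⊆ S := Finset.filter_subset _ _
    have hgI : X.act g (q y) = ∑ a ∈ I, c a • a := by
      rw [hg, Finset.sum_filter_of_ne]
      intro a _ ha h
      exact ha (by rw [h, zero_smul])
    have hcI : ∀ a ∈ I, 0 < c a := fun a ha =>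
      lt_of_le_of_ne (hc a) (Ne.symm (Finset.mem_filter.1 ha).2)
    have hgood : good I g := ⟨y, hy, c, hcI, hgI⟩
    have hI' : I ∈ good' := Finset.mem_filter.2 ⟨Finset.mem_powerset.2 hIS, g, hgood⟩
    obtain ⟨f', hf'⟩ := h.desc ((rep I)⁻¹ * g) (key I hIS _ _ (hrep I ⟨g, hgood⟩) hgood)
    refine ⟨f', ?_⟩
    have h1 : q (Y.act f' y) = q (∑ a : I, (c a.1 * (k ⟨I, hI'⟩ a : ℝ)⁻¹) • (k ⟨I, hI'⟩ a • b ⟨I, hI'⟩ a)) := by
      rw [hf', act_mul, hgI, map_sum, map_sum, ← Finset.sum_coe_sort I]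
      refine Finset.sum_congr rfl fun a _ => ?_
      have hk0 : (0 : ℝ) < k ⟨I, hI'⟩ a := by exact_mod_cast hk ⟨I, hI'⟩ a
      rw [← Nat.cast_smul_eq_nsmul ℝ (k ⟨I, hI'⟩ a), smul_smul, mul_assoc, inv_mul_cancel₀ hk0.ne',
        mul_one, map_smul, map_smul]
      exact congrArg (c a.1 • ·) (hb ⟨I, hI'⟩ a).symm
    rw [h.inj h1]
    refine cone_sum _ _ fun a _ => cone_smul (mem_cone_self ?_)
      (mul_nonneg (hcI a.1 a.2).le (inv_nonneg.2 (Nat.cast_nonneg _)))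
    refine Finset.mem_biUnion.2 ⟨⟨I, hI'⟩, Finset.mem_univ _, ?_⟩
    exact Finset.mem_image.2 ⟨a, Finset.mem_univ _, rfl⟩
  have hL : ∀ g ∈ Y.act.range, ∀ x ∈ intL Y.n, g x ∈ intL Y.n := by
    rintro _ ⟨g, rfl⟩ x hx
    exact hY.act_int g x hx
  have hC : ∀ g ∈ Y.act.range, ∀ x ∈ Y.C, g x ∈ Y.C := by
    rintro _ ⟨g, rfl⟩ x hx
    exact hY.act_cone g x hx
  obtain ⟨S', hS', hcp, hsep⟩ := D'.domain Y.act.range hL hC F hF (fun x hx => by
    obtain ⟨g, hg⟩ := hcovI x hx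
    exact ⟨Y.act g, ⟨g, rfl⟩, hg⟩)
  refine HasDomain.of hS' (fun x => ?_) hsep
  rw [← hcp]
  constructor
  · -- every class of the cone is a combination of integral classes of the cone
    intro hx
    obtain ⟨g, c, hc, hg⟩ := hcov _ ((h.cone _).1 hx)
    let I := S.filter fun a => c a ≠ 0
    have hIS : I ⊆ S := Finset.filter_subset _ _
    have hgI : X.act g (q x) = ∑ a ∈ I, c a • a := by
      rw [hg, Finset.sum_filter_of_ne]
      intro a _ ha h
      exact ha (by rw [h, zero_smul])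
    have hcI : ∀ a ∈ I, 0 < c a := fun a ha =>
      lt_of_le_of_ne (hc a) (Ne.symm (Finset.mem_filter.1 ha).2)
    have hgen2 : ∀ a : I, ∃ (b : Fin Y.n → ℝ) (k : ℕ), 0 < k ∧ q b = X.act g⁻¹ a.1 ∧
        k • b ∈ intL Y.n ∧ k • b ∈ Y.C := by
      intro a
      have haS := hS a.1 (hIS a.2)
      have h2 : X.act g⁻¹ a.1 ∈ X.C := hX.act_cone _ _ haS.2
      have h3 : X.act g⁻¹ (∑ b ∈ I.erase a.1, c b • b) ∈ X.C := by
        refine hX.act_cone _ _ (cone_sub hX (fun a ha => (hS a ha).2) (cone_sum _ _ fun b hb => ?_))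
        exact cone_smul (mem_cone_self (hIS (Finset.mem_of_mem_erase hb)))
          (hcI b (Finset.mem_of_mem_erase hb)).le
      have h4 : ∃ y, q y = c a.1 • X.act g⁻¹ a.1 := by
        refine h.face _ (hCsmul _ (hcI _ a.2).le _ h2) _ h3 ⟨x, ?_⟩
        rw [← map_smul, ← map_add, Finset.add_sum_erase I (fun b => c b • b) a.2, ← hgI, act_inv]
      obtain ⟨b', hb'⟩ := h4
      have hb : q ((c a.1)⁻¹ • b') = X.act g⁻¹ a.1 := by
        rw [map_smul, hb', smul_smul, inv_mul_cancel₀ (hcI _ a.2).ne', one_smul]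
      obtain ⟨k, hk, hkb⟩ := h.int ((c a.1)⁻¹ • b') (by rw [hb]; exact hX.act_int _ _ haS.1)
      refine ⟨(c a.1)⁻¹ • b', k, hk, hb, hkb, ?_⟩
      rw [← Nat.cast_smul_eq_nsmul ℝ]
      exact hY.pair.smul _ (Nat.cast_nonneg _) _ ((h.cone _).2 (by rw [hb]; exact h2))
    choose b2 k2 hk2 hb2 hbL2 hbC2 using hgen2
    refine ⟨Finset.univ.image fun a : I => k2 a • b2 a, fun a ha => ?_, ?_⟩
    · obtain ⟨c, -, rfl⟩ := Finset.mem_image.1 ha
      exact ⟨hbL2 c, hbC2 c⟩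
    · have h1 : q x = q (∑ a : I, (c a.1 * (k2 a : ℝ)⁻¹) • (k2 a • b2 a)) := by
        have e : q x = X.act g⁻¹ (X.act g (q x)) := (act_inv X g _).symm
        rw [e, hgI, map_sum, map_sum, ← Finset.sum_coe_sort I]
        refine Finset.sum_congr rfl fun a _ => ?_
        have hk0 : (0 : ℝ) < k2 a := by exact_mod_cast hk2 a
        rw [← Nat.cast_smul_eq_nsmul ℝ (k2 a), smul_smul, mul_assoc, inv_mul_cancel₀ hk0.ne',
          mul_one, map_smul, map_smul]
        exact congrArg (c a.1 • ·) (hb2 a).symm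
      rw [h.inj h1]
      exact cone_sum _ _ fun a _ => cone_smul (mem_cone_self
        (Finset.mem_image_of_mem _ (Finset.mem_univ a)))
        (mul_nonneg (hcI a.1 a.2).le (inv_nonneg.2 (Nat.cast_nonneg _)))
  · rintro ⟨S1, hS1, hx⟩
    exact D'.cone_Nf hS1 hx

end Pool.Agent.Q315.CC
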