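import Pool.Agent.Q315.CC.Main

/-!
# Groups acting on cones: the definitions with plain functions

The definitions of `Pool.Agent.Q315.CC.Main` with plain functions in place of bundled linear maps, for the
statements, and the three theorems: quotients, products, contractions.

For a variety `X`: `ℝ ^ n = N^1(X)`, `ℤ ^ n` the integral classes, `N` the nef cone or the closed movable
cone, `C` its intersection with the effective cone, `Γ` the group of automorphisms, or of
pseudo-automorphisms, acting by push-forward of divisors.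
-/

set_option autoImplicit false

namespace Pool.Agent.Q315.CC.Pl

open Finset Filter Topology
open Pool.Agent.Y167 Pool.Agent.Q315.CC

/-- The integral vectors. -/
def integral (n : ℕ) : Set (Fin n → ℝ) := {x | ∀ i, ∃ m : ℤ, x i = m}

/-- A space of classes `ℝ ^ n` with its integral classes `ℤ ^ n`, a closed cone `N`, a cone `C`, a degree,
and a group `Γ` with an action. -/
structure ConeSpace where
  /-- the dimension -/
  n : ℕ
  /-- the closed cone -/
  N : Set (Fin n → ℝ)
  /-- the cone of the effective classes in it -/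
  C : Set (Fin n → ℝ)
  /-- the degree -/
  deg : (Fin n → ℝ) → ℝ
  /-- the group -/
  Γ : Type
  [grp : Group Γ]
  /-- the action -/
  act : Γ → (Fin n → ℝ) → (Fin n → ℝ)

attribute [instance] ConeSpace.grp

/-- `N` is a closed convex cone with interior points, `C` is a convex cone between the interior of `N` and
`N`; the degree is linear, integral on integral vectors and positive on the nonzero elements of `N`. -/
structure IsCones (X : ConeSpace) : Prop where
  closed : IsClosed X.N
  smul_closed : ∀ t : ℝ, 0 ≤ t → ∀ x ∈ X.N, t • x ∈ X.N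
  nonempty : (interior X.N).Nonempty
  interior_sub : interior X.N ⊆ X.C
  sub : X.C ⊆ X.N
  add : ∀ x ∈ X.C, ∀ y ∈ X.C, x + y ∈ X.C
  smul : ∀ t : ℝ, 0 ≤ t → ∀ x ∈ X.C, t • x ∈ X.C
  deg_linear : IsLinearMap ℝ X.deg
  deg_int : ∀ x ∈ integral X.n, ∃ m : ℤ, X.deg x = m
  deg_pos : ∀ x ∈ X.N, x ≠ 0 → 0 < X.deg x

/-- The group acts linearly and preserves the integral vectors and `C`. -/
structure IsAction (X : ConeSpace) : Prop where
  linear : ∀ g : X.Γ, IsLinearMap ℝ (X.act g)
  one : ∀ x, X.act 1 x = x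
  mul : ∀ g h : X.Γ, ∀ x, X.act (g * h) x = X.act g (X.act h x)
  int : ∀ g : X.Γ, ∀ x ∈ integral X.n, X.act g x ∈ integral X.n
  cone : ∀ g : X.Γ, ∀ x ∈ X.C, X.act g x ∈ X.C

/-- `f` is a homomorphism of groups. -/
def IsHom {E H : Type} [Group E] [Group H] (f : E → H) : Prop := ∀ a b, f (a * b) = f a * f b

/-- For every finite group `E` and every homomorphism `φ : E → Γ` the homomorphisms `ψ : E → Γ` which
induce the same action of `E` as `φ` fall into finitely many classes with respect to conjugation by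
elements of `Γ` which act trivially. -/
def FinLifts (X : ConeSpace) : Prop :=
  ∀ (E : Type) [Group E] [Finite E] (φ : E → X.Γ), IsHom φ →
    ∃ Φ : Set (E → X.Γ), Φ.Finite ∧ ∀ ψ : E → X.Γ, IsHom ψ →
      (∀ e x, X.act (ψ e) x = X.act (φ e) x) →
        ∃ φ' ∈ Φ, ∃ k : X.Γ, (∀ x, X.act k x = x) ∧ ∀ e, ψ e = k * φ' e * k⁻¹

/-- The known properties of the data of a variety. -/
structure IsConeSpace (X : ConeSpace) : Prop where
  cones : IsCones X
  action : IsAction X
  lifts : FinLifts X

/-- The cone conjecture for `X`: there is a rational polyhedral cone `Π = cone S` such that `C` is the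
union of its translates, and the interiors of `Π` and of `g Π` are disjoint if `g` acts nontrivially. -/
def HasDomain (X : ConeSpace) : Prop :=
  ∃ S : Finset (Fin X.n → ℝ), (∀ a ∈ S, a ∈ integral X.n) ∧ X.C = ⋃ g : X.Γ, X.act g '' cone S ∧
    ∀ g : X.Γ, (∃ x, X.act g x ≠ x) → interior (cone S) ∩ interior (X.act g '' cone S) = ∅

/-- `Y` is the quotient of `X` by the finite group `G`, and `q` is the pullback of classes: an injective
linear map onto the `G`-invariant classes; `C_Y` is the preimage of `C_X`, a class whose pullback is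
integral has an integral multiple, and every element of `Γ_X` which commutes with `G` induces an element
of `Γ_Y`. -/
structure IsQuotient (X Y : ConeSpace) (G : Subgroup X.Γ) (q : (Fin Y.n → ℝ) → (Fin X.n → ℝ)) :
    Prop where
  fin : Finite G
  linear : IsLinearMap ℝ q
  inj : Function.Injective q
  fix : ∀ x, (∀ g ∈ G, X.act g x = x) ↔ ∃ y, q y = x
  cone : ∀ y, y ∈ Y.C ↔ q y ∈ X.C
  int : ∀ y, q y ∈ integral X.n → ∃ k : ℕ, 0 < k ∧ k • y ∈ integral Y.n
  desc : ∀ f : X.Γ, (∀ g ∈ G, g * f = f * g) → ∃ f' : Y.Γ, ∀ y, q (Y.act f' y) = X.act f (q y)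

/-- `X` is the product of the `Z i`, and `p i` is the pullback of classes from `Z i`: the classes in `C_X`
are the sums of pullbacks of classes in the `C_{Z i}`, and elements of the `Γ_{Z i}` induce an element of
`Γ_X`. -/
structure IsProduct (X : ConeSpace) {m : ℕ} (Z : Fin m → ConeSpace)
    (p : ∀ i, (Fin (Z i).n → ℝ) → (Fin X.n → ℝ)) : Prop where
  linear : ∀ i, IsLinearMap ℝ (p i)
  int : ∀ i, ∀ z ∈ integral (Z i).n, p i z ∈ integral X.n
  pull : ∀ i, ∀ z ∈ (Z i).C, p i z ∈ X.C
  sum : ∀ x ∈ X.C, ∃ z : ∀ i, Fin (Z i).n → ℝ, (∀ i, z i ∈ (Z i).C) ∧ x = ∑ i, p i (z i)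
  aut : ∀ f : ∀ i, (Z i).Γ, ∃ g : X.Γ, ∀ i, ∀ z, X.act g (p i z) = p i ((Z i).act (f i) z)

/-- `X → Y` is a contraction and `q` is the pullback of classes: the pullbacks of classes in `C_Y` are a
face of `C_X`, and every element of `Γ_X` which preserves the space of these classes induces an element
of `Γ_Y`. -/
structure IsContraction (X Y : ConeSpace) (q : (Fin Y.n → ℝ) → (Fin X.n → ℝ)) : Prop where
  linear : IsLinearMap ℝ q
  inj : Function.Injective q
  cone : ∀ y, y ∈ Y.C ↔ q y ∈ X.C
  int : ∀ y, q y ∈ integral X.n → ∃ k : ℕ, 0 < k ∧ k • y ∈ integral Y.n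
  face : ∀ x ∈ X.C, ∀ x' ∈ X.C, (∃ y, q y = x + x') → ∃ y, q y = x
  desc : ∀ f : X.Γ, (∀ y, ∃ y', X.act f (q y) = q y') →
    ∃ f' : Y.Γ, ∀ y, q (Y.act f' y) = X.act f (q y)

/-! ### Comparison with the bundled definitions -/

/-- The linear automorphism given by `g`. -/
noncomputable def eqv (X : ConeSpace) (h : IsAction X) (g : X.Γ) :
    (Fin X.n → ℝ) ≃ₗ[ℝ] (Fin X.n → ℝ) where
  toFun := X.act g
  map_add' := (h.linear g).map_add
  map_smul' := (h.linear g).map_smul
  invFun := X.act g⁻¹
  left_inv := fun x => by rw [← h.mul, inv_mul_cancel, h.one]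
  right_inv := fun x => by rw [← h.mul, mul_inv_cancel, h.one]

/-- The bundled data. -/
noncomputable def toData (X : ConeSpace) (h : IsAction X) (hc : IsCones X) : ConeData where
  n := X.n
  N := X.N
  C := X.C
  deg := hc.deg_linear.mk' X.deg
  Γ := X.Γ
  act :=
    { toFun := eqv X h
      map_one' := LinearEquiv.ext fun x => h.one x
      map_mul' := fun a b => LinearEquiv.ext fun x => h.mul a b x }

theorem isConeData {X : ConeSpace} (h : IsConeSpace X) : IsConeData (toData X h.action h.cones) := by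
  refine ⟨⟨h.cones.closed, h.cones.smul_closed, h.cones.nonempty, h.cones.interior_sub, h.cones.sub,
    h.cones.add, h.cones.smul, fun x hx => h.cones.deg_int x hx, h.cones.deg_pos⟩,
    fun g x hx => h.action.int g x hx, fun g x hx => h.action.cone g x hx, ?_⟩
  intro G hG φ
  have : Finite G := hG
  obtain ⟨Φ, hΦ, h1⟩ := h.lifts G (fun g => φ g) (fun a b => map_mul φ a b)
  -- the homomorphisms with underlying function in `Φ`, up to the classes
  have hinj : Function.Injective (fun ψ : G →* (toData X h.action h.cones).Γ => (ψ : G → X.Γ)) :=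
    DFunLike.coe_injective
  -- choose for each `φ'` in `Φ` one homomorphism which is conjugate to it
  classical
  let rep : (G → X.Γ) → (G →* X.Γ) := fun φ' =>
    if hh : ∃ ψ : G →* X.Γ, ∃ k : X.Γ, (∀ x, X.act k x = x) ∧ ∀ e, ψ e = k * φ' e * k⁻¹
    then hh.choose else 1
  have hrep : ∀ φ', (∃ ψ : G →* X.Γ, ∃ k : X.Γ, (∀ x, X.act k x = x) ∧ ∀ e, ψ e = k * φ' e * k⁻¹) →
      ∃ k : X.Γ, (∀ x, X.act k x = x) ∧ ∀ e, rep φ' e = k * φ' e * k⁻¹ := by
    intro φ' hh
    simp only [rep, dif_pos hh]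
    exact hh.choose_spec
  refine ⟨rep '' Φ, hΦ.image rep, fun ψ hψ => ?_⟩
  obtain ⟨φ', hφ', k, hk, h2⟩ := h1 (fun g => ψ g) (fun a b => map_mul ψ a b) (fun e x => by
    have := hψ e
    exact congrArg (fun l : (Fin X.n → ℝ) ≃ₗ[ℝ] (Fin X.n → ℝ) => l x) this)
  obtain ⟨k', hk', h3⟩ := hrep φ' ⟨ψ, k, hk, h2⟩
  have triv : ∀ x : Fin X.n → ℝ, X.act (k * k'⁻¹) x = x := by
    intro x
    have e : X.act k'⁻¹ x = x := by
      have e1 : X.act k'⁻¹ (X.act k' x) = x := by
        rw [← h.action.mul, inv_mul_cancel, h.action.one]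
      rwa [hk'] at e1
    rw [h.action.mul, e, hk]
  refine ⟨rep φ', ⟨φ', hφ', rfl⟩, k * k'⁻¹, LinearEquiv.ext fun x => triv x, fun g => ?_⟩
  · have h4 := h3 g
    have h5 := h2 g
    change ψ g = k * k'⁻¹ * rep φ' g * (k * k'⁻¹)⁻¹
    rw [h4, h5]
    change k * φ' g * k⁻¹ = k * k'⁻¹ * (k' * φ' g * k'⁻¹) * (k * k'⁻¹)⁻¹
    group

theorem hasDomain_iff {X : ConeSpace} (h : IsConeSpace X) :
    HasDomain X ↔ Pool.Agent.Q315.CC.HasDomain (toData X h.action h.cones) := by
  unfold HasDomain Pool.Agent.Q315.CC.HasDomain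
  have key : ∀ g : X.Γ, (∃ x, X.act g x ≠ x) ↔ (toData X h.action h.cones).act g ≠ 1 := by
    intro g
    constructor
    · rintro ⟨x, hx⟩ h1
      exact hx (congrArg (fun l : (Fin X.n → ℝ) ≃ₗ[ℝ] (Fin X.n → ℝ) => l x) h1)
    · intro h1
      by_contra hcon
      push Not at hcon
      exact h1 (LinearEquiv.ext hcon)
  constructor
  · rintro ⟨S, h1, h2, h3⟩
    exact ⟨S, h1, h2, fun g hg => h3 g ((key g).2 hg)⟩
  · rintro ⟨S, h1, h2, h3⟩
    exact ⟨S, h1, h2, fun g hg => h3 g ((key g).1 hg)⟩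

/-- **Quotients by finite groups.** -/
theorem quotient {X Y : ConeSpace} (hX : IsConeSpace X) (hY : IsConeSpace Y) {G : Subgroup X.Γ}
    {q : (Fin Y.n → ℝ) → (Fin X.n → ℝ)} (h : IsQuotient X Y G q) (hc : HasDomain X) :
    HasDomain Y := by
  rw [hasDomain_iff hY]
  refine Pool.Agent.Q315.CC.quotient (X := toData X hX.action hX.cones)
    (Y := toData Y hY.action hY.cones) (G := G) (q := h.linear.mk' q) (isConeData hX) (isConeData hY)
    ⟨h.fin, h.inj, h.fix, h.cone, h.int, h.desc⟩ ?_
  exact ((hasDomain_iff hX).1 hc).covered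

/-- **Products.** -/
theorem product {X : ConeSpace} (hX : IsConeSpace X) {m : ℕ} {Z : Fin m → ConeSpace}
    (hZ : ∀ i, IsConeSpace (Z i)) {p : ∀ i, (Fin (Z i).n → ℝ) → (Fin X.n → ℝ)}
    (h : IsProduct X Z p) (hc : ∀ i, HasDomain (Z i)) : HasDomain X := by
  rw [hasDomain_iff hX, ← covered_iff (isConeData hX)]
  refine Pool.Agent.Q315.CC.product (X := toData X hX.action hX.cones)
    (Z := fun i => toData (Z i) (hZ i).action (hZ i).cones) (p := fun i => (h.linear i).mk' (p i))
    ⟨h.int, h.pull, h.sum, fun f => ?_⟩ fun i => ((hasDomain_iff (hZ i)).1 (hc i)).covered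
  obtain ⟨g, hg⟩ := h.aut f
  refine ⟨g, fun z => ?_⟩
  rw [map_sum]
  exact Finset.sum_congr rfl fun i _ => hg i (z i)

/-- **Contractions.** -/
theorem contraction {X Y : ConeSpace} (hX : IsConeSpace X) (hY : IsConeSpace Y)
    {q : (Fin Y.n → ℝ) → (Fin X.n → ℝ)} (h : IsContraction X Y q) (hc : HasDomain X) :
    HasDomain Y := by
  rw [hasDomain_iff hY]
  refine Pool.Agent.Q315.CC.contraction (X := toData X hX.action hX.cones)
    (Y := toData Y hY.action hY.cones) (q := h.linear.mk' q) (isConeData hX) (isConeData hY)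
    ⟨h.inj, h.cone, h.int, h.face, h.desc⟩ ?_
  exact ((hasDomain_iff hX).1 hc).covered

end Pool.Agent.Q315.CC.Pl
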