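import Pool.Agent.Y167.Dom

/-!
# The Siegel property of finitely generated cones

`L` is a lattice, `Nf` a convex cone, `𝒢` a group of automorphisms of `(L, Nf)`. For finitely generated
subcones `cone S1`, `cone S2` with generators in `L ∩ Nf` only finitely many elements of `𝒢` map an
interior point of `Nf` which lies in `cone S1` into `cone S2`.
-/

set_option autoImplicit false

namespace Pool.Agent.Q315.CC

open Finset Filter Topology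
open Pool.Agent.Y167

variable {W : Type*} [AddCommGroup W] [Module ℝ W]
variable {L : AddSubgroup W} {Nf : Set W} {ξ₀ : W →ₗ[ℝ] ℝ} {y₀ : W} {Y : Finset W}

/-- `x` is an interior point of the cone (with respect to the interior point `y₀`). -/
def Inner (Nf : Set W) (y₀ x : W) : Prop := ∃ t : ℝ, 0 < t ∧ x - t • y₀ ∈ Nf

theorem zero_mem (D : CData L Nf ξ₀ y₀ Y) : (0 : W) ∈ Nf := by
  have := D.smul 0 le_rfl _ D.y_N
  rwa [zero_smul] at this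

/-- Automorphisms of the cone preserve the interior points. -/
theorem inner_map (D : CData L Nf ξ₀ y₀ Y) {h : W ≃ₗ[ℝ] W} (hN : ∀ x ∈ Nf, h x ∈ Nf)
    {x : W} (hx : Inner Nf y₀ x) : Inner Nf y₀ (h x) := by
  obtain ⟨t, ht, h1⟩ := hx
  obtain ⟨C, hC, h2⟩ := D.y_int (h.symm y₀)
  refine ⟨t / C, by positivity, ?_⟩
  have h3 := hN _ h1
  have h4 := hN _ h2
  rw [map_sub, map_smul, h.apply_symm_apply] at h4
  rw [map_sub, map_smul] at h3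
  have e : h x - (t / C) • y₀ = (h x - t • h y₀) + (t / C) • (C • h y₀ - y₀) := by
    rw [smul_sub, smul_smul, div_mul_cancel₀ _ hC.ne']
    abel
  rw [e]
  exact D.add _ h3 _ (D.smul _ (by positivity) _ h4)

/-- **The Siegel property.** -/
theorem siegel (D : CData L Nf ξ₀ y₀ Y) (𝒢 : Subgroup (W ≃ₗ[ℝ] W))
    (hL : ∀ g ∈ 𝒢, ∀ x ∈ L, g x ∈ L) (hN : ∀ g ∈ 𝒢, ∀ x ∈ Nf, g x ∈ Nf)
    (S1 S2 : Finset W) (h1 : ∀ a ∈ S1, a ∈ L ∧ a ∈ Nf) (h2 : ∀ a ∈ S2, a ∈ L ∧ a ∈ Nf) :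
    {δ : W ≃ₗ[ℝ] W | δ ∈ 𝒢 ∧ ∃ z ∈ cone S1, Inner Nf y₀ z ∧ δ z ∈ cone S2}.Finite := by
  classical
  have hone : ∀ x ∈ Nf, (1 : ℝ) * ξ₀ x ≤ ξ₀ x := fun x _ => by rw [one_mul]
  obtain ⟨T1, hT1, hT1'⟩ := D.exists_dickson 𝒢 hL hN D.xi_int one_pos hone S1 h1
  obtain ⟨T2, hT2, hT2'⟩ := D.exists_dickson 𝒢 hL hN D.xi_int one_pos hone S2 h2
  have hnn : ∀ g ∈ 𝒢, ∀ x ∈ Nf, 0 ≤ ξ₀ (g x) := fun g hg x hx => D.xi_nonneg (hN g hg x hx)
  -- the constants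
  let P : Finset W → W → Prop := fun I y => ∃ K : ℝ, 0 < K ∧ K • (∑ a ∈ I, a) - y ∈ Nf
  let K : Finset W → W → ℝ := fun I y => if h : P I y then h.choose else 0
  have hK : ∀ I y, P I y → 0 < K I y ∧ K I y • (∑ a ∈ I, a) - y ∈ Nf := by
    intro I y h
    simp only [K, dif_pos h]
    exact h.choose_spec
  have hK0 : ∀ I y, 0 ≤ K I y := by
    intro I y
    by_cases h : P I y
    · exact (hK I y h).1.le
    · simp only [K, dif_neg h]; exact le_refl _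
  let B : Finset W → ℝ := fun I => ∑ y ∈ Y, K I y * ∑ t ∈ T1, ξ₀ (t (∑ a ∈ I, a))
  have hE : (⋃ I ∈ S1.powerset, {g : W ≃ₗ[ℝ] W | g ∈ 𝒢 ∧ ∀ y ∈ Y, ξ₀ (g y) ≤ B I}).Finite :=
    Set.Finite.biUnion (Finset.finite_toSet _) fun I _ => D.finite_small 𝒢 hL hN (B I)
  have hbig : (⋃ t ∈ T2, (fun g : W ≃ₗ[ℝ] W => t⁻¹ * g) ''
      (⋃ I ∈ S1.powerset, {g : W ≃ₗ[ℝ] W | g ∈ 𝒢 ∧ ∀ y ∈ Y, ξ₀ (g y) ≤ B I})).Finite :=
    Set.Finite.biUnion (Finset.finite_toSet _) fun t _ => hE.image _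
  refine hbig.subset ?_
  rintro δ ⟨hδ, z, hz, ⟨t, ht, hzt⟩, hδz⟩
  have hzN : z ∈ Nf := D.cone_Nf h1 hz
  obtain ⟨c, hc, hzc⟩ := id hz
  have hT2ne : T2.Nonempty := by
    obtain ⟨s, hs, -⟩ := hT2' 1 𝒢.one_mem
    exact ⟨s, hs⟩
  obtain ⟨t2, ht2, hmin⟩ := Finset.exists_min_image T2 (fun s => ξ₀ (s (δ z))) hT2ne
  set g : W ≃ₗ[ℝ] W := t2 * δ with hg
  have hg𝒢 : g ∈ 𝒢 := 𝒢.mul_mem (hT2 t2 ht2) hδ
  -- `g` minimises at `z`
  have hgmin : ∀ h ∈ 𝒢, ξ₀ (g z) ≤ ξ₀ (h z) := by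
    intro h hh
    obtain ⟨s, hs, h3⟩ := hT2' (h * δ⁻¹) (𝒢.mul_mem hh (𝒢.inv_mem hδ))
    have h4 : ξ₀ ((s : W →ₗ[ℝ] W) (δ z)) ≤ ξ₀ (((h * δ⁻¹ : W ≃ₗ[ℝ] W) : W →ₗ[ℝ] W) (δ z)) :=
      CData.le_of_cone (fun a ha => h3 a ha) hδz
    have h5 : ((h * δ⁻¹ : W ≃ₗ[ℝ] W) : W →ₗ[ℝ] W) (δ z) = h z := by
      have : ((h * δ⁻¹ : W ≃ₗ[ℝ] W) : W →ₗ[ℝ] W) (δ z) = (h * δ⁻¹ * δ) z := rfl
      rw [this, inv_mul_cancel_right]
    rw [h5] at h4
    exact (hmin s hs).trans h4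
  obtain ⟨t', ht', hle⟩ := hT1' g hg𝒢
  set I : Finset W := S1.filter fun a => c a ≠ 0 with hI
  have hIS : I ⊆ S1 := Finset.filter_subset _ _
  -- equality on the support
  have hsum : ∀ h : W ≃ₗ[ℝ] W, ξ₀ (h z) = ∑ a ∈ S1, c a * ξ₀ (h a) := by
    intro h
    rw [hzc, map_sum, map_sum]
    exact Finset.sum_congr rfl fun a _ => by rw [map_smul, map_smul, smul_eq_mul]
  have heq : ∀ a ∈ I, ξ₀ (g a) = ξ₀ (t' a) := by
    have h3 := hgmin t' (hT1 t' ht')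
    rw [hsum g, hsum t'] at h3
    have h4 : ∀ a ∈ S1, 0 ≤ c a * (ξ₀ (g a) - ξ₀ (t' a)) := fun a ha =>
      mul_nonneg (hc a) (sub_nonneg.2 (hle a ha))
    have h5 : ∑ a ∈ S1, c a * (ξ₀ (g a) - ξ₀ (t' a)) = 0 := by
      refine le_antisymm ?_ (Finset.sum_nonneg h4)
      have : ∑ a ∈ S1, c a * (ξ₀ (g a) - ξ₀ (t' a)) =
          ∑ a ∈ S1, c a * ξ₀ (g a) - ∑ a ∈ S1, c a * ξ₀ (t' a) := by
        rw [← Finset.sum_sub_distrib]
        exact Finset.sum_congr rfl fun a _ => by ring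
      rw [this]
      linarith
    intro a ha
    obtain ⟨ha1, ha2⟩ := Finset.mem_filter.1 ha
    have h6 := (Finset.sum_eq_zero_iff_of_nonneg h4).1 h5 a ha1
    rcases mul_eq_zero.1 h6 with h7 | h7
    · exact absurd h7 ha2
    · linarith
  have heqI : ξ₀ (g (∑ a ∈ I, a)) = ξ₀ (t' (∑ a ∈ I, a)) := by
    rw [map_sum, map_sum, map_sum, map_sum]
    exact Finset.sum_congr rfl heq
  -- the sum over the support is an interior point
  have hPI : ∀ y, P I y := by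
    intro y
    obtain ⟨C, hC, hCy⟩ := D.y_int y
    set K' : ℝ := 1 + ∑ a ∈ I, c a with hK'
    have hK'0 : 0 < K' := by
      have : 0 ≤ ∑ a ∈ I, c a := Finset.sum_nonneg fun a _ => hc a
      linarith
    have hzI : z = ∑ a ∈ I, c a • a := by
      rw [hzc, hI, Finset.sum_filter_of_ne]
      intro a _ ha h
      exact ha (by rw [h, zero_smul])
    have h3 : K' • (∑ a ∈ I, a) - z ∈ Nf := by
      refine D.cone_Nf h1 ?_
      rw [hzI, Finset.smul_sum, ← Finset.sum_sub_distrib]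
      refine cone_sum _ _ fun a ha => ?_
      rw [← sub_smul]
      refine cone_smul (mem_cone_self (hIS ha)) ?_
      have := Finset.single_le_sum (f := fun a => c a) (fun a _ => hc a) ha
      linarith
    refine ⟨C / t * K', by positivity, ?_⟩
    have e : (C / t * K') • (∑ a ∈ I, a) - y =
        (C / t) • (K' • (∑ a ∈ I, a) - z) + ((C / t) • (z - t • y₀) + (C • y₀ - y)) := by
      rw [smul_sub, smul_sub, smul_smul, smul_smul, div_mul_cancel₀ _ ht.ne']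
      abel
    rw [e]
    exact D.add _ (D.smul _ (by positivity) _ h3) _
      (D.add _ (D.smul _ (by positivity) _ hzt) _ hCy)
  have hgE : g ∈ ⋃ I ∈ S1.powerset, {g : W ≃ₗ[ℝ] W | g ∈ 𝒢 ∧ ∀ y ∈ Y, ξ₀ (g y) ≤ B I} := by
    simp only [Set.mem_iUnion]
    refine ⟨I, Finset.mem_powerset.2 hIS, hg𝒢, fun y hy => ?_⟩
    obtain ⟨hk, hky⟩ := hK I y (hPI y)
    have h3 := hnn g hg𝒢 _ hky
    rw [map_sub, map_sub, map_smul, map_smul, smul_eq_mul, sub_nonneg, heqI] at h3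
    have hpN : ∑ a ∈ I, a ∈ Nf := D.cone_Nf h1 (cone_sum _ _ fun a ha => mem_cone_self (hIS ha))
    have h4 : ξ₀ (t' (∑ a ∈ I, a)) ≤ ∑ t ∈ T1, ξ₀ (t (∑ a ∈ I, a)) :=
      Finset.single_le_sum (f := fun t : W ≃ₗ[ℝ] W => ξ₀ (t (∑ a ∈ I, a)))
        (fun t ht => hnn t (hT1 t ht) _ hpN) ht'
    have h5 : ξ₀ (g y) ≤ K I y * ∑ t ∈ T1, ξ₀ (t (∑ a ∈ I, a)) :=
      h3.trans (mul_le_mul_of_nonneg_left h4 hk.le)
    refine h5.trans (Finset.single_le_sum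
      (f := fun y => K I y * ∑ t ∈ T1, ξ₀ (t (∑ a ∈ I, a))) (fun y _ => ?_) hy)
    exact mul_nonneg (hK0 I y) (Finset.sum_nonneg fun t ht => hnn t (hT1 t ht) _ hpN)
  simp only [Set.mem_iUnion]
  refine ⟨t2, ht2, g, ?_, ?_⟩
  · simpa only [Set.mem_iUnion] using hgE
  · simp only [hg, inv_mul_cancel_left]

end Pool.Agent.Q315.CC
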